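import Mathlib

/-!
# Bowl-shaped speed allocation in tandem flow lines: a counterexample

Two jobs, three stations, and i.i.d. processing times whose law is, for instance, uniform on
`[1, 21/20]`.  In the unlimited-buffer regime, in the manufacturing-blocking regime with any
buffer size, and in the communications-blocking regime with any buffer size at least one, a
minimiser of the expected makespan over the simplex of speed vectors exists, and no minimiser
is bowl-shaped (the middle station must be strictly slower than the two end stations).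

Idea: the critical path serves exactly one station twice.  For nearly constant processing times
and equal speeds the middle station is the doubled one with probability only `1/4`, so the middle
station is the least loaded one.
-/

open MeasureTheory Set

namespace Pool.Agent.Results.MP_eb4cdf_pr.NotBowl

/-- The blocking regimes: unlimited buffers (`b = ∞`), manufacturing blocking and communications
blocking with common finite buffer size `b`. -/
inductive Regime
  | unlimited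
  | manufacturing (b : ℕ)
  | communications (b : ℕ)

/-- `dep R m T i j` is `D_{i,j}`, the time at which job `i` leaves station `j` in a line with `m`
stations, when job `i` occupies station `j` for the time `T i j` (jobs and stations are numbered
from `1`).  A term with index zero or negative is `0` (truncated subtraction turns a negative job
index into job index `0`), and the blocking term is absent at the last station `m`. -/
noncomputable def dep (R : Regime) (m : ℕ) (T : ℕ → ℕ → ℝ) : ℕ → ℕ → ℝ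
  | 0, _ => 0
  | _ + 1, 0 => 0
  | i + 1, j + 1 =>
    match R with
    | .unlimited => max (dep R m T (i + 1) j) (dep R m T i (j + 1)) + T (i + 1) (j + 1)
    | .manufacturing b =>
        if j + 1 < m then
          max (max (dep R m T (i + 1) j + T (i + 1) (j + 1))
            (dep R m T i (j + 1) + T (i + 1) (j + 1))) (dep R m T (i + 1 - b - 1) (j + 2))
        else
          max (dep R m T (i + 1) j + T (i + 1) (j + 1)) (dep R m T i (j + 1) + T (i + 1) (j + 1))
    | .communications b =>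
        if j + 1 < m then
          max (max (dep R m T (i + 1) j) (dep R m T i (j + 1))) (dep R m T (i + 1 - b - 1) (j + 2))
            + T (i + 1) (j + 1)
        else
          max (dep R m T (i + 1) j) (dep R m T i (j + 1)) + T (i + 1) (j + 1)
termination_by i j => (i, j)

/-- Processing times: with works `x (i, j)` (job `i + 1`, station `j + 1`) and speeds `s`, job `i`
occupies station `j` for the time `X_{i,j} / s_j`, for `1 ≤ i ≤ n` and `1 ≤ j ≤ m`. -/
noncomputable def ptime {n m : ℕ} (x : Fin n × Fin m → ℝ) (s : Fin m → ℝ) (i j : ℕ) : ℝ :=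
  if h : (1 ≤ i ∧ i ≤ n) ∧ (1 ≤ j ∧ j ≤ m) then
    x (⟨i - 1, by omega⟩, ⟨j - 1, by omega⟩) / s ⟨j - 1, by omega⟩
  else 0

/-- The expected makespan `F(s) = E[D_{n,m}]` when the works `X_{i,j}` are i.i.d. with law `μ`. -/
noncomputable def F (R : Regime) (n m : ℕ) (μ : Measure ℝ) (s : Fin m → ℝ) : ℝ :=
  ∫ x : Fin n × Fin m → ℝ, dep R m (ptime x s) n m ∂(Measure.pi fun _ => μ)

/-- The simplex of speed allocations: positive speeds with sum one. -/
def simplex (m : ℕ) : Set (Fin m → ℝ) := {s | (∀ j, 0 < s j) ∧ ∑ j, s j = 1}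

/-- `s` is an optimal allocation: it minimises `F` over the simplex. -/
def IsOptimal (R : Regime) (n m : ℕ) (μ : Measure ℝ) (s : Fin m → ℝ) : Prop :=
  s ∈ simplex m ∧ ∀ s' ∈ simplex m, F R n m μ s ≤ F R n m μ s'

/-- Bowl-shaped: symmetric, and nondecreasing up to the middle,
`s_1 ≤ s_2 ≤ ... ≤ s_{⌈m/2⌉}`. -/
def IsBowl {m : ℕ} (s : Fin m → ℝ) : Prop :=
  (∀ j, s j = s j.rev) ∧ ∀ i j : Fin m, i ≤ j → (j : ℕ) + 1 ≤ (m + 1) / 2 → s i ≤ s j

lemma dep_unl (m : ℕ) (T : ℕ → ℕ → ℝ) (i j : ℕ) : dep .unlimited m T (i + 1) (j + 1) =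
    max (dep .unlimited m T (i + 1) j) (dep .unlimited m T i (j + 1)) + T (i + 1) (j + 1) := by
  rw [dep.eq_def]

lemma dep_man (b m : ℕ) (T : ℕ → ℕ → ℝ) (i j : ℕ) : dep (.manufacturing b) m T (i + 1) (j + 1) =
    if j + 1 < m then
      max (max (dep (.manufacturing b) m T (i + 1) j + T (i + 1) (j + 1))
        (dep (.manufacturing b) m T i (j + 1) + T (i + 1) (j + 1)))
        (dep (.manufacturing b) m T (i + 1 - b - 1) (j + 2))
    else
      max (dep (.manufacturing b) m T (i + 1) j + T (i + 1) (j + 1))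
        (dep (.manufacturing b) m T i (j + 1) + T (i + 1) (j + 1)) := by
  rw [dep.eq_def]

lemma dep_com (b m : ℕ) (T : ℕ → ℕ → ℝ) (i j : ℕ) : dep (.communications b) m T (i + 1) (j + 1) =
    if j + 1 < m then
      max (max (dep (.communications b) m T (i + 1) j) (dep (.communications b) m T i (j + 1)))
        (dep (.communications b) m T (i + 1 - b - 1) (j + 2)) + T (i + 1) (j + 1)
    else
      max (dep (.communications b) m T (i + 1) j) (dep (.communications b) m T i (j + 1))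
        + T (i + 1) (j + 1) := by
  rw [dep.eq_def]

lemma dep_zero (R : Regime) (m : ℕ) (T : ℕ → ℕ → ℝ) (j : ℕ) : dep R m T 0 j = 0 := by
  simp [dep]
lemma dep_zero' (R : Regime) (m : ℕ) (T : ℕ → ℕ → ℝ) (i : ℕ) : dep R m T i 0 = 0 := by
  cases i <;> simp [dep]

/-- regimes in which two jobs and three stations never see any blocking delay -/
def Free : Regime → Prop
  | .unlimited => True
  | .manufacturing _ => True
  | .communications b => 1 ≤ b

lemma formula (R : Regime) (hR : Free R) (T : ℕ → ℕ → ℝ) (h : ∀ i j, 0 ≤ T i j) :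
    dep R 3 T 2 3 = T 1 1 + T 2 3 +
      max (T 2 1 + T 2 2) (max (T 1 2 + T 2 2) (T 1 2 + T 1 3)) := by
  have h11 := h 1 1
  have h12 := h 1 2
  have h13 := h 1 3
  have h21 := h 2 1
  have h22 := h 2 2
  have h23 := h 2 3
  have e11 : dep R 3 T 1 1 = T 1 1 := by
    cases R with
    | unlimited => rw [dep_unl 3 T 0 0]; simp [dep_zero, dep_zero']
    | manufacturing b => rw [dep_man b 3 T 0 0]; simp [dep_zero, dep_zero', h11]
    | communications b => rw [dep_com b 3 T 0 0]; simp [dep_zero, dep_zero']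
  have e12 : dep R 3 T 1 2 = T 1 1 + T 1 2 := by
    cases R with
    | unlimited => rw [dep_unl 3 T 0 1]; simp [dep_zero, e11, h11]
    | manufacturing b => rw [dep_man b 3 T 0 1]; simp [dep_zero, e11, h11, add_nonneg h11 h12]
    | communications b => rw [dep_com b 3 T 0 1]; simp [dep_zero, e11, h11]
  have e13 : dep R 3 T 1 3 = T 1 1 + T 1 2 + T 1 3 := by
    cases R with
    | unlimited => rw [dep_unl 3 T 0 2]; simp [dep_zero, e12, add_nonneg h11 h12]
    | manufacturing b => rw [dep_man b 3 T 0 2]; simp [dep_zero, e12, add_nonneg h11 h12]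
    | communications b => rw [dep_com b 3 T 0 2]; simp [dep_zero, e12, add_nonneg h11 h12]
  have e21 : dep R 3 T 2 1 = T 1 1 + T 2 1 ∨ dep R 3 T 2 1 = max (T 1 1 + T 2 1) (T 1 1 + T 1 2) := by
    cases R with
    | unlimited => left; rw [dep_unl 3 T 1 0]; simp [dep_zero', e11, h11]
    | manufacturing b =>
      rw [dep_man b 3 T 1 0]
      cases b with
      | zero =>
        right
        simp [dep_zero', e11, e12, h11]
      | succ b =>
        left
        simp [dep_zero, dep_zero', e11, h11, add_nonneg h11 h21]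
    | communications b =>
      obtain ⟨b, rfl⟩ : ∃ c, b = c + 1 := ⟨b - 1, by simp only [Free] at hR; omega⟩
      rw [dep_com (b+1) 3 T 1 0]
      left
      simp [dep_zero, dep_zero', e11, h11]
  have e22 : dep R 3 T 2 2 = max (T 1 1 + T 2 1) (T 1 1 + T 1 2) + T 2 2 ∨
      dep R 3 T 2 2 = max (max (T 1 1 + T 2 1) (T 1 1 + T 1 2) + T 2 2) (T 1 1 + T 1 2 + T 1 3) := by
    cases R with
    | unlimited =>
      rw [dep_unl 3 T 1 1]
      left
      rcases e21 with e21 | e21
      · simp [e12, e21]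
      · simp only [e12, e21]
        simp
    | manufacturing b =>
      rw [dep_man b 3 T 1 1]
      cases b with
      | zero =>
        right
        rcases e21 with e21 | e21
        · simp [e12, e13, e21, max_add_add_right]
        · simp [e12, e13, e21]
      | succ b =>
        left
        have hnn : 0 ≤ max (T 1 1 + T 2 1) (T 1 1 + T 1 2) + T 2 2 :=
          add_nonneg ((add_nonneg h11 h21).trans (le_max_left _ _)) h22
        rcases e21 with e21 | e21
        · simp [e12, e21, dep_zero, max_add_add_right, hnn]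
        · simp [e12, e21, dep_zero, hnn]
    | communications b =>
      obtain ⟨b, rfl⟩ : ∃ c, b = c + 1 := ⟨b - 1, by simp only [Free] at hR; omega⟩
      rw [dep_com (b+1) 3 T 1 1]
      left
      have hnn : 0 ≤ max (T 1 1 + T 2 1) (T 1 1 + T 1 2) :=
          ((add_nonneg h11 h21).trans (le_max_left _ _))
      rcases e21 with e21 | e21
      · simp [e12, e21, dep_zero, hnn]
      · simp [e12, e21, dep_zero, hnn]
  have e23 : dep R 3 T 2 3 = max (dep R 3 T 2 2) (dep R 3 T 1 3) + T 2 3 := by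
    cases R with
    | unlimited => rw [dep_unl 3 T 1 2]
    | manufacturing b => rw [dep_man b 3 T 1 2]; simp [max_add_add_right]
    | communications b => rw [dep_com b 3 T 1 2]; rfl
  rw [e23, e13]
  rcases e22 with e22 | e22
  · rw [e22]
    simp only [max_def]
    split_ifs <;> linarith
  · rw [e22]
    simp only [max_def]
    split_ifs <;> linarith


/-- The makespan for two jobs and three stations. -/
noncomputable def G (x : Fin 2 × Fin 3 → ℝ) (s : Fin 3 → ℝ) : ℝ :=
  x (0, 0) / s 0 + x (1, 2) / s 2 +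
    max (x (1, 0) / s 0 + x (1, 1) / s 1)
      (max (x (0, 1) / s 1 + x (1, 1) / s 1) (x (0, 1) / s 1 + x (0, 2) / s 2))

lemma dep_eq_G (R : Regime) (hR : Free R) (x : Fin 2 × Fin 3 → ℝ) (hx : ∀ p, 0 ≤ x p)
    (s : Fin 3 → ℝ) (hs : ∀ j, 0 < s j) : dep R 3 (ptime x s) 2 3 = G x s := by
  rw [formula R hR]
  · simp only [ptime, G]
    norm_num
    rfl
  · intro i j
    unfold ptime
    split_ifs with h
    · exact div_nonneg (hx _) (hs _).le
    · exact le_rfl

lemma ae_box (μ : Measure ℝ) [IsProbabilityMeasure μ] {a b : ℝ} (h : μ (Icc a b)ᶜ = 0) :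
    ∀ᵐ x ∂(Measure.pi fun _ : Fin 2 × Fin 3 => μ), ∀ p, x p ∈ Icc a b := by
  rw [ae_all_iff]
  intro p
  have h1 : ∀ᵐ y ∂μ, y ∈ Icc a b := by
    rw [ae_iff]; exact h
  exact (Measure.quasiMeasurePreserving_eval (fun _ : Fin 2 × Fin 3 => μ) p).ae h1

lemma diag_null (μ : Measure ℝ) [IsProbabilityMeasure μ] (h : ∀ a, μ {a} = 0)
    (p q : Fin 2 × Fin 3) (hpq : p ≠ q) :
    (Measure.pi fun _ : Fin 2 × Fin 3 => μ) {x | x p = x q} = 0 := by
  have h1 := ProbabilityTheory.iIndepFun_pi (ι := Fin 2 × Fin 3) (μ := fun _ => μ)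
    (X := fun _ x => x) (fun _ => aemeasurable_id)
  have h2 := h1.indepFun hpq
  have h3 := (ProbabilityTheory.indepFun_iff_map_prod_eq_prod_map_map
    (measurable_pi_apply p).aemeasurable (measurable_pi_apply q).aemeasurable).1 h2
  have h4 : (Measure.pi fun _ : Fin 2 × Fin 3 => μ).map (fun x => x p) = μ :=
    (measurePreserving_eval (fun _ : Fin 2 × Fin 3 => μ) p).map_eq
  have h5 : (Measure.pi fun _ : Fin 2 × Fin 3 => μ).map (fun x => x q) = μ :=
    (measurePreserving_eval (fun _ : Fin 2 × Fin 3 => μ) q).map_eq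
  rw [h4, h5] at h3
  have hm : MeasurableSet {z : ℝ × ℝ | z.1 = z.2} := measurableSet_eq_fun measurable_fst measurable_snd
  have h6 : (Measure.pi fun _ : Fin 2 × Fin 3 => μ) {x | x p = x q}
      = (Measure.pi fun _ : Fin 2 × Fin 3 => μ).map (fun x => (x p, x q)) {z : ℝ × ℝ | z.1 = z.2} := by
    rw [Measure.map_apply _ hm]
    · rfl
    · exact (measurable_pi_apply p).prodMk (measurable_pi_apply q)
  rw [h6, h3, Measure.prod_apply hm]
  have : ∀ y : ℝ, μ (Prod.mk y ⁻¹' {z : ℝ × ℝ | z.1 = z.2}) = 0 := by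
    intro y
    have : Prod.mk y ⁻¹' {z : ℝ × ℝ | z.1 = z.2} = {y} := by
      ext z; simp [eq_comm]
    rw [this]; exact h y
  rw [lintegral_congr this]
  simp

lemma perm_inv (μ : Measure ℝ) [IsProbabilityMeasure μ] (σ : Equiv.Perm (Fin 2 × Fin 3))
    (S : Set (Fin 2 × Fin 3 → ℝ)) (hS : MeasurableSet S) :
    (Measure.pi fun _ : Fin 2 × Fin 3 => μ) {x | (fun p => x (σ p)) ∈ S} =
      (Measure.pi fun _ : Fin 2 × Fin 3 => μ) S := by
  have h := measurePreserving_piCongrLeft (ι := Fin 2 × Fin 3) (α := fun _ => ℝ)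
    (fun _ : Fin 2 × Fin 3 => μ) σ
  have h2 := h.symm.measure_preimage hS.nullMeasurableSet
  rw [← h2]
  congr 1


lemma mlt (p q : Fin 2 × Fin 3) : MeasurableSet {x : Fin 2 × Fin 3 → ℝ | x p < x q} :=
  measurableSet_lt (measurable_pi_apply p) (measurable_pi_apply q)

lemma mle (p q : Fin 2 × Fin 3) (c : ℝ) :
    MeasurableSet {x : Fin 2 × Fin 3 → ℝ | x p ≤ x q + c} :=
  measurableSet_le (measurable_pi_apply p) ((measurable_pi_apply q).add measurable_const)

lemma quarter (μ : Measure ℝ) [IsProbabilityMeasure μ] (h : ∀ a, μ {a} = 0) :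
    (Measure.pi fun _ : Fin 2 × Fin 3 => μ)
      {x | x (1, 0) ≤ x (0, 1) ∧ x (0, 2) ≤ x (1, 1)} ≤ ENNReal.ofReal (1 / 4) := by
  set P := Measure.pi fun _ : Fin 2 × Fin 3 => μ with hP
  let E1 : Set (Fin 2 × Fin 3 → ℝ) := {x | x (1, 0) < x (0, 1) ∧ x (0, 2) < x (1, 1)}
  let E2 : Set (Fin 2 × Fin 3 → ℝ) := {x | x (0, 1) < x (1, 0) ∧ x (0, 2) < x (1, 1)}
  let E3 : Set (Fin 2 × Fin 3 → ℝ) := {x | x (1, 0) < x (0, 1) ∧ x (1, 1) < x (0, 2)}
  let E4 : Set (Fin 2 × Fin 3 → ℝ) := {x | x (0, 1) < x (1, 0) ∧ x (1, 1) < x (0, 2)}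
  have m1 : MeasurableSet E1 := (mlt (1, 0) (0, 1)).inter (mlt (0, 2) (1, 1))
  have m2 : MeasurableSet E2 := (mlt (0, 1) (1, 0)).inter (mlt (0, 2) (1, 1))
  have m3 : MeasurableSet E3 := (mlt (1, 0) (0, 1)).inter (mlt (1, 1) (0, 2))
  have m4 : MeasurableSet E4 := (mlt (0, 1) (1, 0)).inter (mlt (1, 1) (0, 2))
  have q2 : P E2 = P E1 := by
    have := perm_inv μ (Equiv.swap (1, 0) (0, 1)) E1 m1
    rw [← this]
    congr 1
  have q3 : P E3 = P E1 := by
    have := perm_inv μ (Equiv.swap (0, 2) (1, 1)) E1 m1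
    rw [← this]
    congr 1
  have q4 : P E4 = P E2 := by
    have := perm_inv μ (Equiv.swap (0, 2) (1, 1)) E2 m2
    rw [← this]
    congr 1
  have hsum : P E1 + P E2 + P E3 + P E4 ≤ 1 := by
    have d12 : Disjoint E1 E2 := by
      rw [Set.disjoint_left]; rintro x ⟨h1, _⟩ ⟨h2, _⟩; exact lt_asymm h1 h2
    have d123 : Disjoint (E1 ∪ E2) E3 := by
      rw [Set.disjoint_left]; rintro x (⟨_, h1⟩ | ⟨_, h1⟩) ⟨_, h2⟩ <;> exact lt_asymm h1 h2
    have d1234 : Disjoint (E1 ∪ E2 ∪ E3) E4 := by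
      rw [Set.disjoint_left]
      rintro x ((⟨_, h1⟩ | ⟨_, h1⟩) | ⟨h1, _⟩) ⟨h3, h2⟩
      · exact lt_asymm h1 h2
      · exact lt_asymm h1 h2
      · exact lt_asymm h1 h3
    rw [← measure_union d12 m2, ← measure_union d123 m3, ← measure_union d1234 m4]
    exact prob_le_one
  have hle : P {x | x (1, 0) ≤ x (0, 1) ∧ x (0, 2) ≤ x (1, 1)} ≤ P E1 := by
    have hsub : {x : Fin 2 × Fin 3 → ℝ | x (1, 0) ≤ x (0, 1) ∧ x (0, 2) ≤ x (1, 1)} ⊆
        E1 ∪ ({x | x (1, 0) = x (0, 1)} ∪ {x | x (0, 2) = x (1, 1)}) := by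
      rintro x ⟨h1, h2⟩
      rcases h1.lt_or_eq with h1 | h1
      · rcases h2.lt_or_eq with h2 | h2
        · left; exact ⟨h1, h2⟩
        · right; right; exact h2
      · right; left; exact h1
    refine (measure_mono hsub).trans ?_
    refine (measure_union_le _ _).trans ?_
    have h0 : P ({x | x (1, 0) = x (0, 1)} ∪ {x | x (0, 2) = x (1, 1)}) = 0 :=
      measure_union_null (diag_null μ h _ _ (by simp)) (diag_null μ h _ _ (by simp))
    rw [h0, add_zero]
  refine hle.trans ?_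
  rw [q4, q3, q2] at hsum
  have hfin : P E1 ≠ ⊤ := measure_ne_top _ _
  rw [← ENNReal.ofReal_toReal hfin] at hsum ⊢
  rw [← ENNReal.ofReal_add, ← ENNReal.ofReal_add, ← ENNReal.ofReal_add, ENNReal.ofReal_le_one] at hsum
  · apply ENNReal.ofReal_le_ofReal; linarith
  all_goals positivity

lemma small_eps (μ : Measure ℝ) [IsProbabilityMeasure μ] (h : ∀ a, μ {a} = 0) :
    ∃ ε : ℝ, 0 < ε ∧ (Measure.pi fun _ : Fin 2 × Fin 3 => μ).real
      {x | x (1, 0) ≤ x (0, 1) + ε ∧ x (0, 2) ≤ x (1, 1) + ε} ≤ 27 / 100 := by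
  set P := Measure.pi fun _ : Fin 2 × Fin 3 => μ with hP
  let S : ℕ → Set (Fin 2 × Fin 3 → ℝ) := fun n =>
    {x | x (1, 0) ≤ x (0, 1) + 1 / ((n : ℝ) + 1) ∧ x (0, 2) ≤ x (1, 1) + 1 / ((n : ℝ) + 1)}
  have hm : ∀ n, NullMeasurableSet (S n) P := fun n =>
    ((mle (1, 0) (0, 1) _).inter (mle (0, 2) (1, 1) _)).nullMeasurableSet
  have hanti : Antitone S := by
    intro a b hab x hx
    have : (1 : ℝ) / (b + 1) ≤ 1 / (a + 1) := by
      apply one_div_le_one_div_of_le (by positivity)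
      have : (a : ℝ) ≤ b := by exact_mod_cast hab
      linarith
    exact ⟨hx.1.trans (by linarith), hx.2.trans (by linarith)⟩
  have ht := tendsto_measure_iInter_atTop hm hanti ⟨0, measure_ne_top _ _⟩
  have hI : (⋂ n, S n) = {x | x (1, 0) ≤ x (0, 1) ∧ x (0, 2) ≤ x (1, 1)} := by
    ext x
    simp only [S, mem_iInter, mem_ofPred_eq]
    constructor
    · intro hx
      have hl : Filter.Tendsto (fun n : ℕ => (1 : ℝ) / (n + 1)) Filter.atTop (nhds 0) :=
        tendsto_one_div_add_atTop_nhds_zero_nat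
      refine ⟨?_, ?_⟩
      · have := ge_of_tendsto' (hl.const_add (x (0, 1))) (fun n => (hx n).1)
        simpa using this
      · have := ge_of_tendsto' (hl.const_add (x (1, 1))) (fun n => (hx n).2)
        simpa using this
    · intro hx n
      have : (0 : ℝ) ≤ 1 / (n + 1) := by positivity
      exact ⟨by linarith [hx.1], by linarith [hx.2]⟩
  rw [hI] at ht
  have hlt : P {x | x (1, 0) ≤ x (0, 1) ∧ x (0, 2) ≤ x (1, 1)} < ENNReal.ofReal (27 / 100) :=
    (quarter μ h).trans_lt (by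
      apply (ENNReal.ofReal_lt_ofReal_iff (by norm_num)).2; norm_num)
  obtain ⟨n, hn⟩ := (ht.eventually_lt_const hlt).exists
  refine ⟨1 / ((n : ℝ) + 1), by positivity, ?_⟩
  have : P (S n) ≤ ENNReal.ofReal (27 / 100) := hn.le
  exact ENNReal.toReal_le_of_le_ofReal (by norm_num) this


lemma G_measurable (s : Fin 3 → ℝ) : Measurable fun x => G x s := by
  unfold G
  fun_prop

lemma G_continuousAt (x : Fin 2 × Fin 3 → ℝ) (s : Fin 3 → ℝ) (hs : ∀ j, 0 < s j) :
    ContinuousAt (fun s => G x s) s := by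
  have h : ∀ p j, ContinuousAt (fun s : Fin 3 → ℝ => x p / s j) s := fun p j =>
    continuousAt_const.div (continuous_apply j).continuousAt (hs j).ne'
  unfold G
  exact ((h _ _).add (h _ _)).add (((h _ _).add (h _ _)).max
    (((h _ _).add (h _ _)).max ((h _ _).add (h _ _))))

lemma G_bound (x : Fin 2 × Fin 3 → ℝ) (hx : ∀ p, x p ∈ Icc (1 : ℝ) (21 / 20)) (s : Fin 3 → ℝ)
    {c : ℝ} (hc : 0 < c) (hs : ∀ j, c ≤ s j) : ‖G x s‖ ≤ 10 / c := by
  have hq : ∀ p j, 0 ≤ x p / s j ∧ x p / s j ≤ (21 / 20) / c := by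
    intro p j
    have hsj : 0 < s j := hc.trans_le (hs j)
    refine ⟨div_nonneg (by linarith [(hx p).1]) hsj.le, ?_⟩
    exact div_le_div₀ (by norm_num) (hx p).2 hc (hs j)
  have hG0 : 0 ≤ G x s := by
    unfold G
    have := le_max_left (x (1, 0) / s 0 + x (1, 1) / s 1)
      (max (x (0, 1) / s 1 + x (1, 1) / s 1) (x (0, 1) / s 1 + x (0, 2) / s 2))
    have := (hq (0,0) 0).1
    have := (hq (1,2) 2).1
    have := (hq (1,0) 0).1
    have := (hq (1,1) 1).1
    linarith
  rw [Real.norm_of_nonneg hG0]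
  have h1 : (10 : ℝ) / c = 10 * (1 / c) := by ring
  have h2 : (21 / 20 : ℝ) / c = 21 / 20 * (1 / c) := by ring
  have h3 : 0 < 1 / c := by positivity
  rw [h2] at hq
  rw [h1]
  unfold G
  have := (hq (0,0) 0).2
  have := (hq (1,2) 2).2
  have hmax : max (x (1, 0) / s 0 + x (1, 1) / s 1)
      (max (x (0, 1) / s 1 + x (1, 1) / s 1) (x (0, 1) / s 1 + x (0, 2) / s 2))
      ≤ 21 / 10 * (1 / c) := by
    refine max_le ?_ (max_le ?_ ?_)
    · linarith [(hq (1,0) 0).2, (hq (1,1) 1).2]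
    · linarith [(hq (0,1) 1).2, (hq (1,1) 1).2]
    · linarith [(hq (0,1) 1).2, (hq (0,2) 2).2]
  nlinarith

lemma exists_lower (s : Fin 3 → ℝ) (hs : ∀ j, 0 < s j) : ∃ c, 0 < c ∧ ∀ j, c ≤ s j := by
  refine ⟨min (s 0) (min (s 1) (s 2)), by simp [hs], ?_⟩
  intro j
  fin_cases j
  · exact min_le_left _ _
  · exact (min_le_right _ _).trans (min_le_left _ _)
  · exact (min_le_right _ _).trans (min_le_right _ _)

lemma G_integrable (μ : Measure ℝ) [IsProbabilityMeasure μ] (h : μ (Icc (1 : ℝ) (21 / 20))ᶜ = 0)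
    (s : Fin 3 → ℝ) (hs : ∀ j, 0 < s j) :
    Integrable (fun x => G x s) (Measure.pi fun _ : Fin 2 × Fin 3 => μ) := by
  obtain ⟨c, hc, hcs⟩ := exists_lower s hs
  refine Integrable.of_bound (G_measurable s).aestronglyMeasurable (10 / c) ?_
  filter_upwards [ae_box μ h] with x hx
  exact G_bound x hx s hc hcs

lemma F_eq (R : Regime) (hR : Free R) (μ : Measure ℝ) [IsProbabilityMeasure μ]
    (h : μ (Icc (1 : ℝ) (21 / 20))ᶜ = 0) (s : Fin 3 → ℝ) (hs : ∀ j, 0 < s j) :
    F R 2 3 μ s = ∫ x, G x s ∂(Measure.pi fun _ : Fin 2 × Fin 3 => μ) := by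
  unfold F
  apply integral_congr_ae
  filter_upwards [ae_box μ h] with x hx
  exact dep_eq_G R hR x (fun p => by linarith [(hx p).1]) s hs

/-- the symmetric allocation `(a, b, a)` with `2a + b = 1`, `b = 1/3 - t` -/
noncomputable def sym (t : ℝ) : Fin 3 → ℝ := ![1 / 3 + t / 2, 1 / 3 - t, 1 / 3 + t / 2]

lemma sym_pos {t : ℝ} (h1 : -(2 / 3) < t) (h2 : t < 1 / 3) : ∀ j, 0 < sym t j := by
  intro j
  fin_cases j
  · simp [sym]; linarith
  · simp [sym]; linarith
  · simp [sym]; linarith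

lemma real_ineq {A B C D E H u v t ε ind : ℝ} (hA : A ∈ Icc (1 : ℝ) (21 / 20))
    (hB : B ∈ Icc (1 : ℝ) (21 / 20)) (hC : C ∈ Icc (1 : ℝ) (21 / 20))
    (hD : D ∈ Icc (1 : ℝ) (21 / 20)) (hE : E ∈ Icc (1 : ℝ) (21 / 20))
    (hH : H ∈ Icc (1 : ℝ) (21 / 20)) (ht : 0 < t) (ht2 : t ≤ 1 / 400) (hu : 0 < u) (hv : 0 < v)
    (hut : u ≤ t) (hvt : v ≤ 1.01 * t) (hε : 21 * t ≤ 4 * ε)
    (hind : ind = 1 ∨ (ind = 0 ∧ ¬ (A ≤ C + ε ∧ D ≤ B + ε))) :
    (13.5 * u - 9.45 * v) - (4.5 * u + 9.45 * v) * ind ≤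
      3 * E + 3 * H + max (3 * A + 3 * B) (max (3 * C + 3 * B) (3 * C + 3 * D)) -
      ((3 - 4.5 * u) * E + (3 - 4.5 * u) * H +
        max ((3 - 4.5 * u) * A + (3 + 9 * v) * B)
          (max ((3 + 9 * v) * C + (3 + 9 * v) * B) ((3 + 9 * v) * C + (3 - 4.5 * u) * D))) := by
  obtain ⟨hA1, hA2⟩ := hA
  obtain ⟨hB1, hB2⟩ := hB
  obtain ⟨hC1, hC2⟩ := hC
  obtain ⟨hD1, hD2⟩ := hD
  obtain ⟨hE1, hE2⟩ := hE
  obtain ⟨hH1, hH2⟩ := hH
  have hindle : 0 ≤ ind := by
    rcases hind with h | ⟨h, _⟩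
    · rw [h]; norm_num
    · rw [h]
  have hM1 : 3 * A + 3 * B ≤ max (3 * A + 3 * B) (max (3 * C + 3 * B) (3 * C + 3 * D)) :=
    le_max_left _ _
  have hM2 : 3 * C + 3 * B ≤ max (3 * A + 3 * B) (max (3 * C + 3 * B) (3 * C + 3 * D)) :=
    (le_max_left _ _).trans (le_max_right _ _)
  have hM3 : 3 * C + 3 * D ≤ max (3 * A + 3 * B) (max (3 * C + 3 * B) (3 * C + 3 * D)) :=
    (le_max_right _ _).trans (le_max_right _ _)
  have huE : u * 1 ≤ u * E := by gcongr
  have huH : u * 1 ≤ u * H := by gcongr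
  have huA : u * 1 ≤ u * A := by gcongr
  have huD : u * 1 ≤ u * D := by gcongr
  have hvB : v * B ≤ v * (21 / 20) := by gcongr
  have hvC : v * C ≤ v * (21 / 20) := by gcongr
  have hpos : 0 ≤ (4.5 * u + 9.45 * v) * ind := by positivity
  rcases le_total ((3 - 4.5 * u) * A + (3 + 9 * v) * B)
    (max ((3 + 9 * v) * C + (3 + 9 * v) * B) ((3 + 9 * v) * C + (3 - 4.5 * u) * D)) with h | h
  · rw [max_eq_right h]
    rcases le_total ((3 + 9 * v) * C + (3 + 9 * v) * B) ((3 + 9 * v) * C + (3 - 4.5 * u) * D)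
      with h' | h'
    · rw [max_eq_right h']
      linarith
    · rw [max_eq_left h'] at h ⊢
      have hi : ind = 1 := by
        rcases hind with h1 | ⟨_, h2⟩
        · exact h1
        · exfalso
          apply h2
          constructor
          · by_contra hc
            push Not at hc
            nlinarith
          · by_contra hc
            push Not at hc
            nlinarith
      rw [hi]
      linarith
  · rw [max_eq_left h]
    linarith

lemma pointwise {t : ℝ} (ht : 0 < t) (ht2 : t ≤ 1 / 400) {ε : ℝ} (hε : 21 * t ≤ 4 * ε)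
    (x : Fin 2 × Fin 3 → ℝ) (hx : ∀ p, x p ∈ Icc (1 : ℝ) (21 / 20)) :
    (13.5 * t / (1 + 1.5 * t) - 9.45 * t / (1 - 3 * t)) -
      (4.5 * t / (1 + 1.5 * t) + 9.45 * t / (1 - 3 * t)) *
        ({x | x (1, 0) ≤ x (0, 1) + ε ∧ x (0, 2) ≤ x (1, 1) + ε} : Set _).indicator 1 x
      ≤ G x (sym 0) - G x (sym t) := by
  have ha : (0 : ℝ) < 1 + 1.5 * t := by linarith
  have hb : (0 : ℝ) < 1 - 3 * t := by linarith
  set u : ℝ := t / (1 + 1.5 * t) with hu
  set v : ℝ := t / (1 - 3 * t) with hv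
  have hu0 : 0 < u := by positivity
  have hv0 : 0 < v := by positivity
  have e1 : ∀ y : ℝ, y / (1 / 3 + t / 2) = (3 - 4.5 * u) * y := by
    intro y; rw [hu]; field_simp; ring
  have e2 : ∀ y : ℝ, y / (1 / 3 - t) = (3 + 9 * v) * y := by
    intro y
    have : (1 : ℝ) / 3 - t ≠ 0 := by intro h; linarith
    rw [hv]; field_simp; ring
  have e3 : ∀ y : ℝ, y / (1 / 3 + 0 / 2) = 3 * y := by intro y; norm_num; ring
  have e4 : ∀ y : ℝ, y / (1 / 3 - 0) = 3 * y := by intro y; norm_num; ring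
  have e5 : 13.5 * t / (1 + 1.5 * t) = 13.5 * u := by rw [hu]; ring
  have e6 : 9.45 * t / (1 - 3 * t) = 9.45 * v := by rw [hv]; ring
  have e7 : 4.5 * t / (1 + 1.5 * t) = 4.5 * u := by rw [hu]; ring
  rw [e5, e6, e7]
  have s0 : ∀ r, sym r 0 = 1 / 3 + r / 2 := fun _ => rfl
  have s1 : ∀ r, sym r 1 = 1 / 3 - r := fun _ => rfl
  have s2 : ∀ r, sym r 2 = 1 / 3 + r / 2 := fun _ => rfl
  have g0 : G x (sym 0) = 3 * x (0, 0) + 3 * x (1, 2) +
      max (3 * x (1, 0) + 3 * x (1, 1)) (max (3 * x (0, 1) + 3 * x (1, 1))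
        (3 * x (0, 1) + 3 * x (0, 2))) := by
    simp only [G, s0, s1, s2, e3, e4]
  have g1 : G x (sym t) = (3 - 4.5 * u) * x (0, 0) + (3 - 4.5 * u) * x (1, 2) +
      max ((3 - 4.5 * u) * x (1, 0) + (3 + 9 * v) * x (1, 1))
        (max ((3 + 9 * v) * x (0, 1) + (3 + 9 * v) * x (1, 1))
        ((3 + 9 * v) * x (0, 1) + (3 - 4.5 * u) * x (0, 2))) := by
    simp only [G, s0, s1, s2, e1, e2]
  have hut : u ≤ t := by
    rw [hu, div_le_iff₀ ha]; nlinarith
  have hvt : v ≤ 1.01 * t := by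
    rw [hv, div_le_iff₀ hb]; nlinarith
  have hE := hx (0, 0)
  have hH := hx (1, 2)
  have hA := hx (1, 0)
  have hB := hx (1, 1)
  have hC := hx (0, 1)
  have hD := hx (0, 2)
  rw [g0, g1]
  refine real_ineq hA hB hC hD hE hH ht ht2 hu0 hv0 hut hvt hε ?_
  by_cases hS : x (1, 0) ≤ x (0, 1) + ε ∧ x (0, 2) ≤ x (1, 1) + ε
  · left
    exact Set.indicator_of_mem (s := {x : Fin 2 × Fin 3 → ℝ | x (1, 0) ≤ x (0, 1) + ε ∧
      x (0, 2) ≤ x (1, 1) + ε}) hS 1
  · right
    exact ⟨Set.indicator_of_notMem (s := {x : Fin 2 × Fin 3 → ℝ | x (1, 0) ≤ x (0, 1) + ε ∧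
      x (0, 2) ≤ x (1, 1) + ε}) hS 1, hS⟩

/-- main comparison: a slower middle station beats the uniform allocation -/
lemma better (R : Regime) (hR : Free R) (μ : Measure ℝ) [IsProbabilityMeasure μ]
    (h : ∀ a, μ {a} = 0) (hsupp : μ (Icc (1 : ℝ) (21 / 20))ᶜ = 0) :
    ∃ t, 0 < t ∧ t < 1 / 3 ∧ F R 2 3 μ (sym t) < F R 2 3 μ (sym 0) := by
  obtain ⟨ε, hε, hP⟩ := small_eps μ h
  obtain ⟨t, ht, ht2, htε⟩ : ∃ t : ℝ, 0 < t ∧ t ≤ 1 / 400 ∧ 21 * t ≤ 4 * ε := by
    refine ⟨min (1 / 400) (4 * ε / 21), by positivity, min_le_left _ _, ?_⟩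
    have := min_le_right (1 / 400) (4 * ε / 21)
    linarith
  refine ⟨t, ht, by linarith, ?_⟩
  have hp0 : ∀ j, 0 < sym 0 j := sym_pos (by norm_num) (by norm_num)
  have hpt : ∀ j, 0 < sym t j := sym_pos (by linarith) (by linarith)
  rw [F_eq R hR μ hsupp _ hp0, F_eq R hR μ hsupp _ hpt]
  set P := Measure.pi fun _ : Fin 2 × Fin 3 => μ with hPdef
  set S : Set (Fin 2 × Fin 3 → ℝ) := {x | x (1, 0) ≤ x (0, 1) + ε ∧ x (0, 2) ≤ x (1, 1) + ε} with hSdef
  have hSm : MeasurableSet S := (mle (1, 0) (0, 1) _).inter (mle (0, 2) (1, 1) _)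
  have hint0 := G_integrable μ hsupp _ hp0
  have hintt := G_integrable μ hsupp _ hpt
  have hI : Integrable (S.indicator (1 : (Fin 2 × Fin 3 → ℝ) → ℝ)) P :=
    (integrable_const (1 : ℝ)).indicator hSm
  have hle : ∫ x, ((13.5 * t / (1 + 1.5 * t) - 9.45 * t / (1 - 3 * t)) -
      (4.5 * t / (1 + 1.5 * t) + 9.45 * t / (1 - 3 * t)) * S.indicator 1 x) ∂P ≤
      ∫ x, (G x (sym 0) - G x (sym t)) ∂P := by
    apply integral_mono_ae
    · exact (integrable_const _).sub (hI.const_mul _)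
    · exact hint0.sub hintt
    · filter_upwards [ae_box μ hsupp] with x hx
      exact pointwise ht ht2 htε x hx
  rw [integral_sub hint0 hintt] at hle
  rw [integral_sub (integrable_const _) (hI.const_mul _), integral_const, integral_const_mul,
    integral_indicator_one hSm] at hle
  simp only [probReal_univ, smul_eq_mul, one_mul] at hle
  have ha : (0 : ℝ) < 1 + 1.5 * t := by linarith
  have hb : (0 : ℝ) < 1 - 3 * t := by linarith
  set u : ℝ := t / (1 + 1.5 * t) with hu
  set v : ℝ := t / (1 - 3 * t) with hv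
  have hu0 : 0 < u := by positivity
  have hv0 : 0 < v := by positivity
  have e5 : 13.5 * t / (1 + 1.5 * t) = 13.5 * u := by rw [hu]; ring
  have e6 : 9.45 * t / (1 - 3 * t) = 9.45 * v := by rw [hv]; ring
  have e7 : 4.5 * t / (1 + 1.5 * t) = 4.5 * u := by rw [hu]; ring
  rw [e5, e6, e7] at hle
  have huv : v ≤ 1.0125 * u := by
    rw [hu, hv, ← mul_div_assoc, div_le_div_iff₀ hb ha]
    nlinarith
  have hPr : P.real S ≤ 27 / 100 := hP
  have hP0 : 0 ≤ P.real S := measureReal_nonneg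
  have : (4.5 * u + 9.45 * v) * P.real S ≤ (4.5 * u + 9.45 * v) * (27 / 100) := by gcongr
  nlinarith


lemma conv_inv {y p q θ : ℝ} (hy : 0 ≤ y) (hp : 0 < p) (hq : 0 < q) (h0 : 0 ≤ θ) (h1 : θ ≤ 1) :
    y / ((1 - θ) * p + θ * q) ≤ (1 - θ) * (y / p) + θ * (y / q) := by
  have hpos : 0 < (1 - θ) * p + θ * q := by
    rcases h0.lt_or_eq with h | h
    · have : 0 ≤ (1 - θ) * p := mul_nonneg (by linarith) hp.le
      have := mul_pos h hq
      linarith
    · rw [← h]; simpa using hp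
  rw [div_le_iff₀ hpos]
  have e : ((1 - θ) * (y / p) + θ * (y / q)) * ((1 - θ) * p + θ * q)
      = y + y * (θ * (1 - θ) * ((p - q) ^ 2 / (p * q))) := by
    field_simp
    ring
  rw [e]
  have : 0 ≤ y * (θ * (1 - θ) * ((p - q) ^ 2 / (p * q))) := by
    have : 0 ≤ 1 - θ := by linarith
    positivity
  linarith

lemma G_convex (x : Fin 2 × Fin 3 → ℝ) (hx : ∀ p, 0 ≤ x p) (s s' : Fin 3 → ℝ)
    (hs : ∀ j, 0 < s j) (hs' : ∀ j, 0 < s' j) {θ : ℝ} (h0 : 0 ≤ θ) (h1 : θ ≤ 1) :
    G x (fun j => (1 - θ) * s j + θ * s' j) ≤ (1 - θ) * G x s + θ * G x s' := by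
  have h : ∀ p j, x p / ((1 - θ) * s j + θ * s' j) ≤ (1 - θ) * (x p / s j) + θ * (x p / s' j) :=
    fun p j => conv_inv (hx p) (hs j) (hs' j) h0 h1
  have hθ : 0 ≤ 1 - θ := by linarith
  unfold G
  have a1 := mul_le_mul_of_nonneg_left (le_max_left (x (1, 0) / s 0 + x (1, 1) / s 1)
      (max (x (0, 1) / s 1 + x (1, 1) / s 1) (x (0, 1) / s 1 + x (0, 2) / s 2))) hθ
  have a2 := mul_le_mul_of_nonneg_left ((le_max_left (x (0, 1) / s 1 + x (1, 1) / s 1)
    (x (0, 1) / s 1 + x (0, 2) / s 2)).trans (le_max_right (x (1, 0) / s 0 + x (1, 1) / s 1)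
      (max (x (0, 1) / s 1 + x (1, 1) / s 1) (x (0, 1) / s 1 + x (0, 2) / s 2)))) hθ
  have a3 := mul_le_mul_of_nonneg_left ((le_max_right (x (0, 1) / s 1 + x (1, 1) / s 1)
    (x (0, 1) / s 1 + x (0, 2) / s 2)).trans (le_max_right (x (1, 0) / s 0 + x (1, 1) / s 1)
      (max (x (0, 1) / s 1 + x (1, 1) / s 1) (x (0, 1) / s 1 + x (0, 2) / s 2)))) hθ
  have b1 := mul_le_mul_of_nonneg_left (le_max_left (x (1, 0) / s' 0 + x (1, 1) / s' 1)
      (max (x (0, 1) / s' 1 + x (1, 1) / s' 1) (x (0, 1) / s' 1 + x (0, 2) / s' 2))) h0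
  have b2 := mul_le_mul_of_nonneg_left ((le_max_left (x (0, 1) / s' 1 + x (1, 1) / s' 1)
    (x (0, 1) / s' 1 + x (0, 2) / s' 2)).trans (le_max_right (x (1, 0) / s' 0 + x (1, 1) / s' 1)
      (max (x (0, 1) / s' 1 + x (1, 1) / s' 1) (x (0, 1) / s' 1 + x (0, 2) / s' 2)))) h0
  have b3 := mul_le_mul_of_nonneg_left ((le_max_right (x (0, 1) / s' 1 + x (1, 1) / s' 1)
    (x (0, 1) / s' 1 + x (0, 2) / s' 2)).trans (le_max_right (x (1, 0) / s' 0 + x (1, 1) / s' 1)
      (max (x (0, 1) / s' 1 + x (1, 1) / s' 1) (x (0, 1) / s' 1 + x (0, 2) / s' 2)))) h0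
  have hmax : max (x (1, 0) / ((1 - θ) * s 0 + θ * s' 0) + x (1, 1) / ((1 - θ) * s 1 + θ * s' 1))
      (max (x (0, 1) / ((1 - θ) * s 1 + θ * s' 1) + x (1, 1) / ((1 - θ) * s 1 + θ * s' 1))
        (x (0, 1) / ((1 - θ) * s 1 + θ * s' 1) + x (0, 2) / ((1 - θ) * s 2 + θ * s' 2))) ≤
      (1 - θ) * max (x (1, 0) / s 0 + x (1, 1) / s 1)
      (max (x (0, 1) / s 1 + x (1, 1) / s 1) (x (0, 1) / s 1 + x (0, 2) / s 2)) +
      θ * max (x (1, 0) / s' 0 + x (1, 1) / s' 1)
      (max (x (0, 1) / s' 1 + x (1, 1) / s' 1) (x (0, 1) / s' 1 + x (0, 2) / s' 2)) := by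
    refine max_le ?_ (max_le ?_ ?_)
    · linarith [h (1, 0) 0, h (1, 1) 1]
    · linarith [h (0, 1) 1, h (1, 1) 1]
    · linarith [h (0, 1) 1, h (0, 2) 2]
  linarith [h (0, 0) 0, h (1, 2) 2]

lemma F_convex (R : Regime) (hR : Free R) (μ : Measure ℝ) [IsProbabilityMeasure μ]
    (hsupp : μ (Icc (1 : ℝ) (21 / 20))ᶜ = 0) (s s' : Fin 3 → ℝ)
    (hs : ∀ j, 0 < s j) (hs' : ∀ j, 0 < s' j) {θ : ℝ} (h0 : 0 ≤ θ) (h1 : θ ≤ 1) :
    F R 2 3 μ (fun j => (1 - θ) * s j + θ * s' j) ≤
      (1 - θ) * F R 2 3 μ s + θ * F R 2 3 μ s' := by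
  have hpos : ∀ j, 0 < (1 - θ) * s j + θ * s' j := by
    intro j
    rcases h0.lt_or_eq with h | h
    · have : 0 ≤ (1 - θ) * s j := mul_nonneg (by linarith) (hs j).le
      have := mul_pos h (hs' j)
      linarith
    · rw [← h]; simpa using hs j
  rw [F_eq R hR μ hsupp _ hpos, F_eq R hR μ hsupp _ hs, F_eq R hR μ hsupp _ hs',
    ← integral_const_mul, ← integral_const_mul, ← integral_add]
  · apply integral_mono_ae (G_integrable μ hsupp _ hpos)
    · exact ((G_integrable μ hsupp _ hs).const_mul _).add ((G_integrable μ hsupp _ hs').const_mul _)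
    · filter_upwards [ae_box μ hsupp] with x hx
      exact G_convex x (fun p => by linarith [(hx p).1]) s s' hs hs' h0 h1
  · exact (G_integrable μ hsupp _ hs).const_mul _
  · exact (G_integrable μ hsupp _ hs').const_mul _

lemma sym_mem {t : ℝ} (h1 : -(2 / 3) < t) (h2 : t < 1 / 3) : sym t ∈ simplex 3 := by
  refine ⟨sym_pos h1 h2, ?_⟩
  rw [Fin.sum_univ_three]
  show (1 / 3 + t / 2) + (1 / 3 - t) + (1 / 3 + t / 2) = 1
  ring

lemma not_bowl (R : Regime) (hR : Free R) (μ : Measure ℝ) [IsProbabilityMeasure μ]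
    (h : ∀ a, μ {a} = 0) (hsupp : μ (Icc (1 : ℝ) (21 / 20))ᶜ = 0) (s : Fin 3 → ℝ)
    (hs : IsOptimal R 2 3 μ s) : ¬ IsBowl s := by
  rintro ⟨hsym, hmon⟩
  obtain ⟨t, ht, ht3, hlt⟩ := better R hR μ h hsupp
  have hsm := hs.1
  have h02 : s 0 = s 2 := hsym 0
  have h01 : s 0 ≤ s 1 := hmon 0 1 (by decide) (by decide)
  have hsum := hsm.2
  rw [Fin.sum_univ_three] at hsum
  have hs1 := hsm.1 1
  have hs0 := hsm.1 0
  set r : ℝ := 1 / 3 - s 1 with hr
  have hr0 : r ≤ 0 := by rw [hr]; linarith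
  have hr1 : -(2 / 3) < r := by rw [hr]; linarith
  have hse : s = sym r := by
    funext j
    fin_cases j
    · show s 0 = 1 / 3 + r / 2
      rw [hr]; linarith
    · show s 1 = 1 / 3 - r
      rw [hr]; ring
    · show s 2 = 1 / 3 + r / 2
      rw [hr]; linarith
  have htr : 0 < t - r := by linarith
  set θ : ℝ := -r / (t - r) with hθ
  have hθ0 : 0 ≤ θ := div_nonneg (by linarith) htr.le
  have hθ1 : θ < 1 := by rw [hθ, div_lt_one htr]; linarith
  have hcomb : (fun j => (1 - θ) * sym r j + θ * sym t j) = sym 0 := by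
    have hθe : θ * (t - r) = -r := by rw [hθ]; field_simp
    funext j
    fin_cases j
    · show (1 - θ) * (1 / 3 + r / 2) + θ * (1 / 3 + t / 2) = 1 / 3 + 0 / 2
      linarith
    · show (1 - θ) * (1 / 3 - r) + θ * (1 / 3 - t) = 1 / 3 - 0
      linarith
    · show (1 - θ) * (1 / 3 + r / 2) + θ * (1 / 3 + t / 2) = 1 / 3 + 0 / 2
      linarith
  have hconv := F_convex R hR μ hsupp (sym r) (sym t) (sym_pos hr1 (by linarith))
    (sym_pos (by linarith) ht3) hθ0 hθ1.le
  rw [hcomb, ← hse] at hconv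
  have hopt := hs.2 (sym t) (sym_mem (by linarith) ht3)
  nlinarith

lemma exists_optimal (R : Regime) (hR : Free R) (μ : Measure ℝ) [IsProbabilityMeasure μ]
    (hsupp : μ (Icc (1 : ℝ) (21 / 20))ᶜ = 0) : ∃ s, IsOptimal R 2 3 μ s := by
  let K : Set (Fin 3 → ℝ) := {s | (∀ j, (1 / 30 : ℝ) ≤ s j) ∧ ∑ j, s j = 1}
  have hKpos : ∀ s ∈ K, ∀ j, 0 < s j := fun s hs j => by linarith [hs.1 j]
  have hKc : IsCompact K := by
    have hsub : K ⊆ Icc (fun _ => (1 / 30 : ℝ)) (fun _ => 1) := by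
      intro s hs
      refine ⟨fun j => hs.1 j, fun j => ?_⟩
      have hsum := hs.2
      rw [Fin.sum_univ_three] at hsum
      have h0 := hs.1 0
      have h1 := hs.1 1
      have h2 := hs.1 2
      fin_cases j
      · show s 0 ≤ 1
        linarith
      · show s 1 ≤ 1
        linarith
      · show s 2 ≤ 1
        linarith
    have hcl : IsClosed K := by
      have : K = (⋂ j, {s | (1 / 30 : ℝ) ≤ s j}) ∩ {s | ∑ j, s j = 1} := by
        ext s; simp [K]
      rw [this]
      refine IsClosed.inter (isClosed_iInter fun j => ?_) ?_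
      · exact isClosed_le continuous_const (continuous_apply j)
      · exact isClosed_eq (continuous_finsetSum _ fun j _ => continuous_apply j) continuous_const
    exact IsCompact.of_isClosed_subset isCompact_Icc hcl hsub
  have hsymK : sym 0 ∈ K := by
    refine ⟨?_, (sym_mem (by norm_num) (by norm_num)).2⟩
    intro j
    fin_cases j
    · show (1 / 30 : ℝ) ≤ 1 / 3 + 0 / 2
      norm_num
    · show (1 / 30 : ℝ) ≤ 1 / 3 - 0
      norm_num
    · show (1 / 30 : ℝ) ≤ 1 / 3 + 0 / 2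
      norm_num
  have hcont : ContinuousOn (fun s => ∫ x, G x s ∂(Measure.pi fun _ : Fin 2 × Fin 3 => μ)) K := by
    refine continuousOn_of_dominated (bound := fun _ => 10 / (1 / 30)) ?_ ?_ (integrable_const _) ?_
    · intro s _
      exact (G_measurable s).aestronglyMeasurable
    · intro s hs
      filter_upwards [ae_box μ hsupp] with x hx
      exact G_bound x hx s (by norm_num) hs.1
    · filter_upwards with x
      intro s hs
      exact (G_continuousAt x s (hKpos s hs)).continuousWithinAt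
  obtain ⟨s, hsK, hmin⟩ := hKc.exists_isMinOn ⟨_, hsymK⟩ hcont
  refine ⟨s, ⟨hKpos s hsK, hsK.2⟩, ?_⟩
  intro s' hs'
  rw [F_eq R hR μ hsupp s (hKpos s hsK), F_eq R hR μ hsupp s' hs'.1]
  by_cases hK : s' ∈ K
  · exact hmin hK
  · have hex : ∃ j, s' j < 1 / 30 := by
      by_contra hcon
      push Not at hcon
      exact hK ⟨hcon, hs'.2⟩
    obtain ⟨j, hj⟩ := hex
    have h1 : ∫ x, G x s ∂(Measure.pi fun _ : Fin 2 × Fin 3 => μ) ≤
        ∫ x, G x (sym 0) ∂(Measure.pi fun _ : Fin 2 × Fin 3 => μ) := hmin hsymK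
    have h2 : ∫ x, G x (sym 0) ∂(Measure.pi fun _ : Fin 2 × Fin 3 => μ) ≤ 30 := by
      have : ∫ x, G x (sym 0) ∂(Measure.pi fun _ : Fin 2 × Fin 3 => μ) ≤
          ∫ _, (30 : ℝ) ∂(Measure.pi fun _ : Fin 2 × Fin 3 => μ) := by
        apply integral_mono_ae (G_integrable μ hsupp _ (hKpos _ hsymK)) (integrable_const _)
        filter_upwards [ae_box μ hsupp] with x hx
        have hb := G_bound x hx (sym 0) (c := 1 / 3) (by norm_num) (by
          intro j
          fin_cases j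
          · show (1 / 3 : ℝ) ≤ 1 / 3 + 0 / 2
            norm_num
          · show (1 / 3 : ℝ) ≤ 1 / 3 - 0
            norm_num
          · show (1 / 3 : ℝ) ≤ 1 / 3 + 0 / 2
            norm_num)
        have := (Real.le_norm_self _).trans hb
        norm_num at this
        exact this
      simpa using this
    have h3 : 30 ≤ ∫ x, G x s' ∂(Measure.pi fun _ : Fin 2 × Fin 3 => μ) := by
      have : ∫ _, (30 : ℝ) ∂(Measure.pi fun _ : Fin 2 × Fin 3 => μ) ≤
          ∫ x, G x s' ∂(Measure.pi fun _ : Fin 2 × Fin 3 => μ) := by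
        apply integral_mono_ae (integrable_const _) (G_integrable μ hsupp _ hs'.1)
        filter_upwards [ae_box μ hsupp] with x hx
        have hq : ∀ p k, 0 ≤ x p / s' k := fun p k =>
          div_nonneg (by linarith [(hx p).1]) (hs'.1 k).le
        have hq2 : ∀ p, 30 ≤ x p / s' j := by
          intro p
          rw [le_div_iff₀ (hs'.1 j)]
          linarith [(hx p).1]
        unfold G
        have hm := le_max_left (x (1, 0) / s' 0 + x (1, 1) / s' 1)
          (max (x (0, 1) / s' 1 + x (1, 1) / s' 1) (x (0, 1) / s' 1 + x (0, 2) / s' 2))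
        have := hq (0, 0) 0
        have := hq (1, 2) 2
        have := hq (1, 0) 0
        have := hq (1, 1) 1
        fin_cases j
        · have : 30 ≤ x (0, 0) / s' 0 := hq2 (0, 0)
          linarith
        · have : 30 ≤ x (1, 1) / s' 1 := hq2 (1, 1)
          linarith
        · have : 30 ≤ x (1, 2) / s' 2 := hq2 (1, 2)
          linarith
      simpa using this
    linarith

/-- An explicit law: the uniform distribution on `[1, 21/20]`. -/
lemma exists_law : ∃ μ : Measure ℝ, IsProbabilityMeasure μ ∧ (∀ a, μ {a} = 0) ∧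
    μ (Icc (1 : ℝ) (21 / 20))ᶜ = 0 := by
  refine ⟨(ENNReal.ofReal 20) • volume.restrict (Icc (1 : ℝ) (21 / 20)), ⟨?_⟩, ?_, ?_⟩
  · rw [Measure.smul_apply, Measure.restrict_apply_univ, Real.volume_Icc, smul_eq_mul,
      ← ENNReal.ofReal_mul (by norm_num)]
    norm_num
  · intro a
    rw [Measure.smul_apply]
    simp
  · rw [Measure.smul_apply, Measure.restrict_apply measurableSet_Icc.compl]
    simp

/-- **Disproof of the bowl-shape conjecture.**  There is a law `μ` on `[0, ∞)` with finite mean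
such that for two jobs and three stations with i.i.d. works of law `μ`, in the unlimited-buffer
regime, in the manufacturing-blocking regime with every buffer size, and in the
communications-blocking regime with every buffer size at least one, an optimal allocation exists
and no optimal allocation is bowl-shaped. -/
theorem result : ∃ μ : Measure ℝ, IsProbabilityMeasure μ ∧ μ (Iio 0) = 0 ∧
    Integrable (fun x => x) μ ∧
    ∀ R : Regime, (∀ b, R = .communications b → 1 ≤ b) →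
      (∃ s, IsOptimal R 2 3 μ s) ∧ ∀ s, IsOptimal R 2 3 μ s → ¬ IsBowl s := by
  obtain ⟨μ, hμ, hat, hsupp⟩ := exists_law
  have hae : ∀ᵐ x ∂μ, x ∈ Icc (1 : ℝ) (21 / 20) := by rw [ae_iff]; exact hsupp
  refine ⟨μ, hμ, ?_, ?_, ?_⟩
  · refine measure_mono_null ?_ hsupp
    intro x hx hx2
    have h1 : x < 0 := hx
    have h2 : (1 : ℝ) ≤ x := hx2.1
    linarith
  · refine Integrable.of_bound measurable_id.aestronglyMeasurable (21 / 20) ?_
    filter_upwards [hae] with x hx
    rw [Real.norm_of_nonneg (by linarith [hx.1])]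
    exact hx.2
  · intro R hR
    have hF : Free R := by
      cases R with
      | unlimited => trivial
      | manufacturing b => trivial
      | communications b => exact hR b rfl
    exact ⟨exists_optimal R hF μ hsupp, fun s hs => not_bowl R hF μ hat hsupp s hs⟩

end Pool.Agent.Results.MP_eb4cdf_pr.NotBowl
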